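import Pool.Agent.Lib.Pb99418A.LowerTail

/-!
# Average and typical lengths in the level quotients of the Grigorchuk group

Let `x = 2.467…` be the positive root of `x ^ 3 = x ^ 2 + 2 x + 4`.

* The average length of the elements of `G_n`, divided by `x ^ n`, converges to a positive limit
  `m = β (x + 1 + 2 / x)`; the diameter is at least the average and at most twice the average.
* All but a proportion `o(1)` of the elements `g` of `G_n` have a length within `ε x ^ n` of
  `m x ^ n`, and every shortest word for `g` has the same letter frequencies: the numbers of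
  `b, c, d` are `β x ^ n`, `β (x - 1) / 2 x ^ n`, `β / x x ^ n` up to `ε x ^ n`.
* At most `exp (- c 2 ^ n) |G_n|` elements of `G_n` have length at most `(m - ε) x ^ n`, with
  `c > 0` depending on `ε` (the order of `G_n` is `2 ^ (5 * 2 ^ (n - 3) + 2)`).

Idea of the proof.  If the letters have weights `0, B, C, D` that satisfy the triangle
inequalities, a word of weight `W` has two sections of total weight at most `W + K` for the weights
`T (B, C, D) = ((B + C + D) / 2, B, C)`, and `T` multiplies `λ = (x ^ 2, 2 x, 4)` by `x / 2`.  So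
the mean `M_n` of the weighted length satisfies `M_{n+1} ≥ x M_n - K`, and `M_n = O(x ^ n)` (our
earlier upper bound of the diameter) gives a limit.  For other weights the normalized iterates of
`T` converge to a multiple of `λ`, which gives a lower bound for the mean; the mean is
superadditive in the weights, and the lower bounds for `μ` and `R λ - μ` add up to the limit for
`R λ`, so both are sharp.  The two sections of a uniform element are asymptotically uncorrelated,
which gives a law of large numbers.  The letter counts follow by comparison of the weights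
`1, 1, 1` with `2, 1, 1` and `0, 1, 1`, and so on.  The Laplace transform of the weighted length
is almost submultiplicative under the passage to the two sections, which gives the last point.
-/

namespace Pool.Agent.Results.MP_b99418_al.AverageLength

open Pool.Agent.Lib.Pb99418 Pool.Agent.Lib.Pb99418A Pool.Agent.Lib.Pb99418U Filter Topology

theorem result :
    ∃ x β : ℝ, 0 < x ∧ x ^ 3 = x ^ 2 + 2 * x + 4 ∧
      (∀ y : ℝ, 0 < y → y ^ 3 = y ^ 2 + 2 * y + 4 → y = x) ∧ 0 < β ∧
      -- the average length
      Tendsto (fun n => avg n / x ^ n) atTop (𝓝 (β * (x + 1 + 2 / x))) ∧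
      (∀ n, avg n ≤ D n ∧ (D n : ℝ) ≤ 2 * avg n) ∧
      -- typical elements
      (∀ ε : ℝ, 0 < ε → Tendsto (fun n =>
        ({g : Gn n | ¬ Typical x β ε n g}.ncard : ℝ) / Nat.card (Gn n)) atTop (𝓝 0)) ∧
      -- elements of small length
      ∀ ε : ℝ, 0 < ε → ∃ c : ℝ, 0 < c ∧ ∀ᶠ n : ℕ in atTop,
        ({g : Gn n | (len n g : ℝ) ≤ (β * (x + 1 + 2 / x) - ε) * x ^ n}.ncard : ℝ) ≤
          Real.exp (-(c * 2 ^ n)) * Nat.card (Gn n) := by
  obtain ⟨x, hx0, hx3⟩ := exists_root
  have hx : 2.46 ≤ x := by linarith [root_lower hx0 hx3]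
  have hx4 := root_upper hx0 hx3
  obtain ⟨L, C, hL0, hC0, hL, hC⟩ := exists_L hx hx3 hx4
  have e : 2 * (cw x 1 1 1 * L) = L / (x ^ 2 + 2 + 8 / x) * (x + 1 + 2 / x) := by
    unfold cw; ring
  refine ⟨x, L / (x ^ 2 + 2 + 8 / x), hx0, hx3, fun y hy0 hy => root_unique x y hx0 hx3 hy0 hy,
    by positivity, ?_, fun n => ⟨avg_le_D n, D_le_two_avg n⟩, fun ε hε => ?_, fun ε hε => ?_⟩
  · rw [← e]
    exact avg_lim hx hx3 hx4 hL hL0.le
  · exact typical hx hx3 hx4 hL hL0.le hC0 hC hε
  · rw [← e]
    exact lower_len hx hx3 hx4 hL hL0.le hC0 hC hε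

end Pool.Agent.Results.MP_b99418_al.AverageLength
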