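import Pool.Agent.Lib.Pb99418A.Pen
import Pool.Agent.Lib.Pb99418U.Growth

/-!
# The diameters of the level quotients of the Grigorchuk group, asymptotically

Let `x = 2.467…` be the positive root of `x ^ 3 = x ^ 2 + 2 x + 4`.  Then `D_n / x ^ n` converges to
a positive limit.  As a consequence of `D_n = O(x ^ n)` the number of the elements of `G` of length
at most `r` is at least `exp (c r ^ (log 2 / log x))` for all `r ≥ 1`.

Idea of the proof.  Give the letters `a, b, c, d` the weights `0, p, q, r` and let `W (p, q, r) n` be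
the largest weighted length of an element of `G_n`; `D_n` is `2 W (1, 1, 1) n` up to `2`.

* `D_n = O(x ^ n)`.  Let `K` be the normal closure of `(ab)^2` in `G`, `K^(i)` the product of the
  copies of `K` at the vertices of level `i`, and `Δ_i` the diameter of `G / K^(i)`.  There is a
  chain `K = N_0 > N_1 > … > N_M = K^(k)` of `M = 2 (2^k - 1)` steps of order two, each central in
  `G / N_{m+1}`.  An element of `N_m^(j)` is killed modulo `N_{m+1}^(j)` level by level, by
  commutators of elements `B`, prescribed modulo `K^(i-1)` only, with the elements `Φ^{i-2}(h)`,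
  `Φ(g) = (g, a g a)`, whose weighted length is multiplied exactly by `x` by `Φ`.  This gives
  `Δ_{j+k} ≤ Δ_j + 8 (2^k - 1) ∑_{i<j} Δ_i + C_k x^j`, and `1 + 8 (2^k - 1) / (x - 1) < x^k` for
  `k = 9`.
* If `B, C, D` satisfy the triangle inequalities, an element of weight `w` has two sections of total
  weight at most `w + K` for the weights `T (B, C, D) = ((B + C + D) / 2, B, C)`, and `T` multiplies
  `λ = (x ^ 2, 2 x, 4)` by `x / 2`.  For the elements `(g, a g a)` this gives
  `W λ (n + 1) ≥ x W λ n - K`, so `W λ n / x ^ n` has a limit `κ`, which is positive and finite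
  because `D_n` is between two multiples of `x ^ n`.  As the normalized iterates of `T` map all
  weights `μ` towards multiples of `λ`, `W μ n ≥ (c(μ) κ - o(1)) x ^ n` with a linear function `c`.
* Without the triangle inequality: let in the words for a section the letter `a` have weight
  `α`, and each pair of adjacent letters different from `a` an additional cost `π`.  In the sections
  of an alternating word these pairs correspond to the letters `d`.  So weight of `b` can be moved
  from one section to the other without loss: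
  `|g_0|_(D - π₁ + α, B, C) + |g_1|_(D - π₀ + α, B, C) ≤ |g|_(B, C, D) + K`.
* In two such steps one gets from `λ` to multiples of `(1, 1, 1)`:
  `W (2 x + 4, x ^ 2, 2 x) (n + 1) + W (x ^ 2 + 2 x, x ^ 2, x ^ 2) n + x ^ 2 W (1, 1, 1) n ≤
  W λ (n + 2) + K`,
  and as `c(λ) = 1` and nothing is lost, `W (1, 1, 1) n ≤ (c(1, 1, 1) κ + o(1)) x ^ n`.
-/

namespace Pool.Agent.Results.MP_b99418_al.DiameterLimit

open Pool.Agent.Lib.Pb99418 Pool.Agent.Lib.Pb99418A Pool.Agent.Lib.Pb99418U Filter Topology

theorem result :
    ∃ x δ : ℝ, 0 < x ∧ x ^ 3 = x ^ 2 + 2 * x + 4 ∧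
      (∀ y : ℝ, 0 < y → y ^ 3 = y ^ 2 + 2 * y + 4 → y = x) ∧ 0 < δ ∧
      Tendsto (fun n : ℕ => (D n : ℝ) / x ^ n) atTop (𝓝 δ) ∧
      (∃ c : ℝ, 0 < c ∧ ∀ r : ℕ, 1 ≤ r →
        Real.exp (c * (r : ℝ) ^ (Real.log 2 / Real.log x)) ≤ ((ballG r).ncard : ℝ)) := by
  obtain ⟨x, hx0, hx3⟩ := exists_root
  have hx : 2.46 ≤ x := by linarith [root_lower hx0 hx3]
  obtain ⟨κ, hκ, -, hD⟩ := D_conv hx hx3 (root_upper hx0 hx3)
  refine ⟨x, 2 * (cw x 1 1 1 * κ), hx0, hx3, fun y hy0 hy => root_unique x y hx0 hx3 hy0 hy, ?_, hD,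
    growth x hx0 hx3⟩
  have hc : 0 < cw x 1 1 1 := by
    unfold cw
    have : 0 < (x - 1) / 2 := by linarith
    positivity
  positivity

end Pool.Agent.Results.MP_b99418_al.DiameterLimit
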