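import Pool.Agent.Lib.Pb99418.Upper

/-!
# Exact length of the central element of the level quotients of the Grigorchuk group

Let `z_n` be the element of `G_n` whose portrait has the nontrivial label exactly at the vertices
of level `n - 1`.  For `n ≥ 3` its length is exactly `ell (n - 3)`, where
`ell 0 = 8`, `ell 1 = 24`, `ell 2 = 56` and `ell (k + 3) = ell (k + 2) + 2 ell (k + 1) + 4 ell k`.
In particular `D_n ≥ ell (n - 3) ≥ 8 x ^ (n - 3)`, where `x = 2.467…` is the positive root of
`x ^ 3 = x ^ 2 + 2 x + 4`.

Idea of the proof.  Upper bound: if `z_1 a z_2 a ⋯ z_m a` (all `z_i` in `{b, c, d}`) represents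
`z_n`, then replacing `c ↦ b a b`, `d ↦ c a c`, `b ↦ b a d a c` gives a word for `z_{n+1}`.
Lower bound: give the letters `b, c, d` the weights `p, q, r` at level `n + 1` and
`(p + q + r) / 2, p, q` at level `n`; since every `d` of a cyclically alternating word deletes a
letter `a` in one of its sections, where two letters can be merged, the weight of a word for
`z_{n+1}` is at least the sum of the weights of two words for `z_n`.
-/

namespace Pool.Agent.Results.MP_b99418_al.ExactLastLevel

open Pool.Agent.Lib.Pb99418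

theorem result (k : ℕ) :
    (∃ g : G, IsLastFlip (k + 3) g) ∧
    (∀ g : G, IsLastFlip (k + 3) g → len (k + 3) (g : Gn (k + 3)) = ell k) ∧
    IsGreatest (Set.range (len (k + 3))) (D (k + 3)) ∧
    ell k ≤ D (k + 3) ∧
    ∀ x : ℝ, 0 < x → x ^ 3 = x ^ 2 + 2 * x + 4 → 8 * x ^ k ≤ (D (k + 3) : ℝ) :=
  ⟨exists_lastFlip k, len_lastFlip k, D_isGreatest (k + 3), ell_le_D k, fun x hx hx3 =>
    (ell_growth x hx hx3 k).trans (by exact_mod_cast ell_le_D k)⟩

end Pool.Agent.Results.MP_b99418_al.ExactLastLevel
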